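import Pool.Agent.H33.RP.Id
import Pool.Agent.H96.RE.Defs

/-!
Bridge between helper33's operator theorem and helper96's `PC` (helper87; no row).
-/

set_option autoImplicit false
open scoped Classical

namespace H87RE

/-- The monomials with empty closure are independent modulo everything polynomial calculus derives in degree `E`. -/
theorem bridge {n M B E : ℕ} (S : Fin M → Finset (Fin n)) (σ : Fin M → Fin n → ZMod 2) (hS : H33RP.Exp S B)
    (hk : ∀ j, (S j).card ≤ E) (hE : 16 * E ≤ B) (hB : 1 ≤ B) :
    Disjoint (Submodule.span (ZMod 2)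
      (H96RE.mono '' {T : Finset (Fin n) | T.card ≤ E ∧ T ∈ {T : Finset (Fin n) | H33RP.Spt S B T = ∅}}))
      (H96RE.PC S σ E) := by
  obtain ⟨K, hK1, hK2, hK3⟩ := H33RP.ideal_exists S σ hS hk hE hB
  have hPC : H96RE.PC S σ E ≤ K := by
    unfold H96RE.PC
    apply sInf_le
    refine ⟨fun j => ?_, ?_⟩
    · have e : H96RE.indic (H96RE.falseSet (S j) (σ j)) = H33RP.fal (S j) (σ j) := by
        funext x
        unfold H96RE.indic H96RE.falseSet H33RP.fal
        by_cases h : ∀ v ∈ S j, x v = σ j v
        · rw [if_pos (show x ∈ {x | ∀ t ∈ S j, x t = σ j t} from h), if_pos h]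
        · rw [if_neg (show ¬ x ∈ {x | ∀ t ∈ S j, x t = σ j t} from h), if_neg h]
      rw [e]; exact hK2 j
    · intro g hg e he hge i
      exact hK1 g i e hg hge he
  rw [Submodule.disjoint_def]
  intro f hf hfP
  exact hK3 f hf (hPC hfP)

end H87RE
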