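import Mathlib

/-!
The largest term of the binomial series `(1 + q) ^ n` with `q = D / (n - D)` is the `D`-th one (helper87).
-/

set_option autoImplicit false
open scoped Classical

namespace H87RE

theorem mt_step_up {n D i : ℕ} (hi : i < D) (hD : D < n) {q : ℝ} (hq : q * ((n : ℝ) - D) = D) :
    (n.choose i : ℝ) * q ^ i ≤ (n.choose (i + 1) : ℝ) * q ^ (i + 1) := by
  have hn : (0:ℝ) < (n:ℝ) - D := by
    have : (D:ℝ) < n := by exact_mod_cast hD
    linarith
  have hq0 : 0 ≤ q := by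
    by_contra h
    push Not at h
    have : q * ((n : ℝ) - D) < 0 := mul_neg_of_neg_of_pos h hn
    have h2 : (0:ℝ) ≤ D := Nat.cast_nonneg D
    linarith
  have hc : (n.choose (i + 1) : ℝ) * (i + 1) = (n.choose i : ℝ) * ((n : ℝ) - i) := by
    have h := Nat.choose_succ_right_eq n i
    have h' : ((n.choose (i+1) * (i+1) : ℕ) : ℝ) = ((n.choose i * (n - i) : ℕ) : ℝ) := by rw [h]
    rw [Nat.cast_mul, Nat.cast_mul, Nat.cast_sub (by omega)] at h'
    push_cast at h'
    exact h'
  have hi1 : (0:ℝ) < (i:ℝ) + 1 := by positivity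
  have key : (n.choose i : ℝ) ≤ (n.choose (i + 1) : ℝ) * q := by
    have e : (n.choose (i + 1) : ℝ) = (n.choose i : ℝ) * ((n : ℝ) - i) / (i + 1) := by
      rw [eq_div_iff hi1.ne']; exact hc
    rw [e]
    have h1 : ((i:ℝ) + 1) ≤ ((n : ℝ) - i) * q := by
      have h2 : (i:ℝ) + 1 ≤ D := by exact_mod_cast hi
      have h3 : ((n : ℝ) - D) * q ≤ ((n : ℝ) - i) * q := by
        apply mul_le_mul_of_nonneg_right _ hq0
        have : (i:ℝ) ≤ D := by linarith
        linarith
      have h4 : ((n : ℝ) - D) * q = D := by rw [mul_comm]; exact hq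
      linarith
    rw [div_mul_eq_mul_div, le_div_iff₀ hi1, mul_assoc]
    exact mul_le_mul_of_nonneg_left h1 (Nat.cast_nonneg _)
  calc (n.choose i : ℝ) * q ^ i ≤ ((n.choose (i + 1) : ℝ) * q) * q ^ i :=
        mul_le_mul_of_nonneg_right key (pow_nonneg hq0 i)
    _ = (n.choose (i + 1) : ℝ) * q ^ (i + 1) := by rw [pow_succ]; ring

theorem mt_step_down {n D i : ℕ} (hi : D ≤ i) (hin : i < n) (hD : D < n) {q : ℝ} (hq : q * ((n : ℝ) - D) = D) :
    (n.choose (i + 1) : ℝ) * q ^ (i + 1) ≤ (n.choose i : ℝ) * q ^ i := by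
  have hn : (0:ℝ) < (n:ℝ) - D := by
    have : (D:ℝ) < n := by exact_mod_cast hD
    linarith
  have hq0 : 0 ≤ q := by
    by_contra h
    push Not at h
    have : q * ((n : ℝ) - D) < 0 := mul_neg_of_neg_of_pos h hn
    have h2 : (0:ℝ) ≤ D := Nat.cast_nonneg D
    linarith
  have hc : (n.choose (i + 1) : ℝ) * (i + 1) = (n.choose i : ℝ) * ((n : ℝ) - i) := by
    have h := Nat.choose_succ_right_eq n i
    have h' : ((n.choose (i+1) * (i+1) : ℕ) : ℝ) = ((n.choose i * (n - i) : ℕ) : ℝ) := by rw [h]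
    rw [Nat.cast_mul, Nat.cast_mul, Nat.cast_sub (by omega)] at h'
    push_cast at h'
    exact h'
  have hi1 : (0:ℝ) < (i:ℝ) + 1 := by positivity
  have key : (n.choose (i + 1) : ℝ) * q ≤ (n.choose i : ℝ) := by
    have e : (n.choose (i + 1) : ℝ) = (n.choose i : ℝ) * ((n : ℝ) - i) / (i + 1) := by
      rw [eq_div_iff hi1.ne']; exact hc
    rw [e]
    have h1 : ((n : ℝ) - i) * q ≤ ((i:ℝ) + 1) := by
      have h2 : (D:ℝ) ≤ i := by exact_mod_cast hi
      have h3 : ((n : ℝ) - i) * q ≤ ((n : ℝ) - D) * q := by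
        apply mul_le_mul_of_nonneg_right _ hq0
        linarith
      have h4 : ((n : ℝ) - D) * q = D := by rw [mul_comm]; exact hq
      linarith
    rw [div_mul_eq_mul_div, div_le_iff₀ hi1, mul_assoc]
    exact mul_le_mul_of_nonneg_left h1 (Nat.cast_nonneg _)
  calc (n.choose (i + 1) : ℝ) * q ^ (i + 1) = ((n.choose (i + 1) : ℝ) * q) * q ^ i := by rw [pow_succ]; ring
    _ ≤ (n.choose i : ℝ) * q ^ i := mul_le_mul_of_nonneg_right key (pow_nonneg hq0 i)

theorem mt_max {n D : ℕ} (hD : D < n) {q : ℝ} (hq : q * ((n : ℝ) - D) = D) (i : ℕ) (hi : i ≤ n) :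
    (n.choose i : ℝ) * q ^ i ≤ (n.choose D : ℝ) * q ^ D := by
  rcases le_total i D with h | h
  · have key : ∀ k : ℕ, i ≤ k → k ≤ D → (n.choose i : ℝ) * q ^ i ≤ (n.choose k : ℝ) * q ^ k := by
      intro k hk
      induction k, hk using Nat.le_induction with
      | base => intro _; exact le_rfl
      | succ k hk ih =>
        intro hkD
        exact (ih (by omega)).trans (mt_step_up (by omega) hD hq)
    exact key D h le_rfl
  · have key : ∀ k : ℕ, D ≤ k → k ≤ n → (n.choose k : ℝ) * q ^ k ≤ (n.choose D : ℝ) * q ^ D := by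
      intro k hk
      induction k, hk using Nat.le_induction with
      | base => intro _; exact le_rfl
      | succ k hk ih =>
        intro hkn
        exact (mt_step_down hk (by omega) hD hq).trans (ih (by omega))
    exact key i h hi

/-- the `D`-th term of `(1 + q) ^ n` is at least the average -/
theorem max_term {n D : ℕ} (hD : D < n) {q : ℝ} (hq : q * ((n : ℝ) - D) = D) :
    (1 + q) ^ n ≤ (n + 1) * ((n.choose D : ℝ) * q ^ D) := by
  rw [add_comm (1:ℝ) q, add_pow]
  calc ∑ m ∈ Finset.range (n + 1), q ^ m * 1 ^ (n - m) * (n.choose m : ℝ)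
      ≤ ∑ m ∈ Finset.range (n + 1), (n.choose D : ℝ) * q ^ D := by
        apply Finset.sum_le_sum
        intro m hm
        rw [one_pow, mul_one, mul_comm]
        exact mt_max hD hq m (by rw [Finset.mem_range] at hm; omega)
    _ = (n + 1) * ((n.choose D : ℝ) * q ^ D) := by
        rw [Finset.sum_const, Finset.card_range, nsmul_eq_mul]; push_cast; ring

end H87RE
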